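import Pool.Agent.H379.TN.Defs

/-!
# Project TN, part D, first file: Frobenius algebras, embeddings, the pairing
-/

set_option autoImplicit false
set_option linter.unusedSectionVars false
set_option linter.unusedVariables false

open CategoryTheory CategoryTheory.Abelian
open Pool.Agent.H379.TN Pool.Agent.H190.NK

namespace Pool.Agent.H79.TN

variable {K B : Type} [Field K] [Ring B] [Algebra K B] (y : Fr K B)

theorem lam_nu (a : B) : y.lam (y.nu a) = y.lam a := by
  have := y.comm a 1
  simpa using this.symm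

/-- the form `t ↦ lam (- * t)` -/
def phi0 : B →ₗ[K] Module.Dual K B where
  toFun t := y.lam ∘ₗ LinearMap.mulRight K t
  map_add' t t' := by
    ext x
    simp [mul_add]
  map_smul' c t := by
    ext x
    simp

theorem phi0_apply (t x : B) : phi0 y t x = y.lam (x * t) := rfl

theorem phi0_inj : Function.Injective (phi0 y) := by
  rw [← LinearMap.ker_eq_bot, LinearMap.ker_eq_bot']
  intro t ht
  refine y.nondeg t fun x => ?_
  rw [← phi0_apply, ht]
  rfl

section fin

variable [Module.Finite K B]

theorem phi0_surj : Function.Surjective (phi0 y) :=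
  (LinearMap.injective_iff_surjective_of_finrank_eq_finrank
    (Subspace.dual_finrank_eq (K := K) (V := B)).symm).mp (phi0_inj y)

/-- the equivalence -/
noncomputable def phi : B ≃ₗ[K] Module.Dual K B :=
  LinearEquiv.ofBijective (phi0 y) ⟨phi0_inj y, phi0_surj y⟩

theorem phi_apply (t x : B) : phi y t x = y.lam (x * t) := rfl

end fin

theorem eq_of_lam {t t' : B} (h : ∀ a, y.lam (a * t) = y.lam (a * t')) : t = t' := by
  rw [← sub_eq_zero]
  refine y.nondeg _ fun x => ?_
  rw [mul_sub, map_sub, h, sub_self]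

section fin

variable [Module.Finite K B]
variable {Q : Type} [AddCommGroup Q] [Module B Q] [Module K Q] [IsScalarTower K B Q]

/-- the `B`-linear map with a given trace -/
noncomputable def lift (l : Q →ₗ[K] K) : Q →ₗ[B] B where
  toFun q := (phi y).symm (l ∘ₗ (LinearMap.toSpanSingleton B Q q).restrictScalars K)
  map_add' q q' := by
    rw [← map_add]
    congr 1
    ext a
    simp [smul_add]
  map_smul' t q := by
    apply eq_of_lam y
    intro a
    rw [← phi_apply, LinearEquiv.apply_symm_apply, RingHom.id_apply, smul_eq_mul, ← mul_assoc,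
      ← phi_apply, LinearEquiv.apply_symm_apply]
    simp [mul_smul]

theorem lam_mul_lift (l : Q →ₗ[K] K) (a : B) (q : Q) : y.lam (a * lift y l q) = l (a • q) := by
  rw [← phi_apply]
  change phi y ((phi y).symm _) a = _
  rw [LinearEquiv.apply_symm_apply]
  simp

theorem lam_lift (l : Q →ₗ[K] K) (q : Q) : y.lam (lift y l q) = l q := by
  have := lam_mul_lift y l 1 q
  simpa using this

include y in
/-- `B` is injective as a module over itself -/
theorem injective_self : Module.Injective B B := by
  refine ⟨fun P Q _ _ _ _ f hf g => ?_⟩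
  let : Module K P := Module.compHom P (algebraMap K B)
  let : Module K Q := Module.compHom Q (algebraMap K B)
  have : IsScalarTower K B P := ⟨fun c t p => by
    change (c • t) • p = algebraMap K B c • (t • p)
    rw [smul_smul, Algebra.smul_def]⟩
  have : IsScalarTower K B Q := ⟨fun c t p => by
    change (c • t) • p = algebraMap K B c • (t • p)
    rw [smul_smul, Algebra.smul_def]⟩
  obtain ⟨l, hl⟩ := LinearMap.dualMap_surjective_of_injective (f := f.restrictScalars K)
    (by exact hf) (y.lam ∘ₗ g.restrictScalars K)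
  refine ⟨lift y l, fun p => ?_⟩
  apply eq_of_lam y
  intro a
  rw [lam_mul_lift, ← map_smul]
  have := LinearMap.congr_fun hl (a • p)
  simp only [LinearMap.dualMap_apply', LinearMap.comp_apply, LinearMap.restrictScalars_apply] at this
  rw [this, map_smul, smul_eq_mul]

include y in
theorem inj_pi (n : ℕ) : Module.Injective B (Fin n → B) := by
  have := injective_self y
  refine ⟨fun P Q _ _ _ _ f hf g => ?_⟩
  have h : ∀ i : Fin n, ∃ h : Q →ₗ[B] B, ∀ x, h (f x) = ((LinearMap.proj i) ∘ₗ g) x := by
    intro i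
    exact this.out f hf _
  choose h hh using h
  refine ⟨LinearMap.pi h, fun x => ?_⟩
  ext i
  exact hh i x

include y in
theorem exists_embed {N : Type} [AddCommGroup N] [Module B N] [Module K N] [IsScalarTower K B N]
    [Module.Finite K N] : ∃ (n : ℕ) (j : N →ₗ[B] (Fin n → B)), Function.Injective j := by
  let b := Module.finBasis K N
  refine ⟨Module.finrank K N, LinearMap.pi fun i => lift y (b.coord i), ?_⟩
  rw [← LinearMap.ker_eq_bot, LinearMap.ker_eq_bot']
  intro q hq
  apply b.ext_elem
  intro i
  have h1 : lift y (b.coord i) q = 0 := congrFun hq i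
  have h2 := lam_lift y (b.coord i) q
  rw [h1, map_zero] at h2
  rw [← Module.Basis.coord_apply, ← h2, map_zero]
  rfl

end fin

/-! ### twists -/

section tw

variable {N N' N'' : Type} [AddCommGroup N] [Module B N] [AddCommGroup N'] [Module B N']
  [AddCommGroup N''] [Module B N'']

/-- functoriality of the twist -/
def twm (d : N →ₗ[B] N') : Tw y N →ₗ[B] Tw y N' where
  toFun x := Tw.mk y (d (Tw.un y x))
  map_add' x x' := by
    apply Tw.ext y
    simp
  map_smul' b x := by
    apply Tw.ext y
    simp

@[simp] theorem un_twm (d : N →ₗ[B] N') (x : Tw y N) : Tw.un y (twm y d x) = d (Tw.un y x) := rfl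

/-- twisting twice -/
def tw2 (d : Tw y N →ₗ[B] N') : N →ₗ[B] Tw y N' where
  toFun x := Tw.mk y (d (Tw.mk y x))
  map_add' x x' := by
    apply Tw.ext y
    exact map_add d (Tw.mk y x) (Tw.mk y x')
  map_smul' b x := by
    apply Tw.ext y
    have : Tw.mk y (b • x) = y.nu b • Tw.mk y x := by
      apply Tw.ext y
      simp [y.nn]
    change d (Tw.mk y (b • x)) = y.nu b • d (Tw.mk y x)
    rw [this, map_smul]

/-- twisting twice -/
def tw3 (d : N →ₗ[B] Tw y N') : Tw y N →ₗ[B] N' where
  toFun x := Tw.un y (d (Tw.un y x))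
  map_add' x x' := by
    rw [Tw.un_add, map_add, Tw.un_add]
  map_smul' b x := by
    rw [Tw.un_smul, map_smul, Tw.un_smul, y.nn]
    rfl

/-- the twist of an injective module is injective -/
theorem tw_injective (h : Module.Injective B N) : Module.Injective B (Tw y N) := by
  refine ⟨fun P Q _ _ _ _ f hf g => ?_⟩
  obtain ⟨h', hh'⟩ := h.out (twm y f) (by
    intro a b hab
    apply Tw.ext y
    exact hf (congrArg (Tw.un y) hab)) (tw3 y g)
  refine ⟨tw2 y h', fun x => ?_⟩
  apply Tw.ext y
  exact hh' (Tw.mk y x)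

theorem twm_inj {d : N →ₗ[B] N'} (h : Function.Injective d) : Function.Injective (twm y d) := by
  intro a b hab
  apply Tw.ext y
  exact h (congrArg (Tw.un y) hab)

theorem twm_surj {d : N →ₗ[B] N'} (h : Function.Surjective d) :
    Function.Surjective (twm y d) := by
  intro a
  obtain ⟨x, hx⟩ := h (Tw.un y a)
  exact ⟨Tw.mk y x, Tw.ext y hx⟩

end tw

/-! ### the pairing -/

section pairing

variable {U : Type} [AddCommGroup U] [Module K U] [Module B U] [IsScalarTower K B U]

/-- the pairing -/
def pr {a : ℕ} (g : (Fin a → B) →ₗ[B] U) (u : U →ₗ[B] Tw y (Fin a → B)) : K :=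
  ∑ i, y.lam (Tw.un y (u (g (Pi.single i 1))) i)

theorem pr_adj {a m : ℕ} (d : (Fin a → B) →ₗ[B] (Fin m → B)) (h : (Fin m → B) →ₗ[B] U)
    (u : U →ₗ[B] Tw y (Fin a → B)) : pr y (h ∘ₗ d) u = pr y h (twm y d ∘ₗ u) := by
  unfold pr
  have h1 : ∀ i : Fin a, y.lam (Tw.un y (u ((h ∘ₗ d) (Pi.single i 1))) i) =
      ∑ j : Fin m, y.lam (Tw.un y (u (h (Pi.single j 1))) i * d (Pi.single i 1) j) := by
    intro i
    have e1 : d (Pi.single i 1) = ∑ j : Fin m, (d (Pi.single i 1) j) • (Pi.single j (1 : B) : Fin m → B) := by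
      conv_lhs => rw [pi_eq_sum_univ' (d (Pi.single i 1))]
    have e2 : Tw.un y (u ((h ∘ₗ d) (Pi.single i 1))) =
        ∑ j : Fin m, y.nu (d (Pi.single i 1) j) • Tw.un y (u (h (Pi.single j 1))) := by
      rw [LinearMap.comp_apply]
      conv_lhs => rw [e1]
      rw [map_sum, map_sum]
      change Tw.un y (∑ j, u (h (d (Pi.single i 1) j • Pi.single j 1))) = _
      have e3 : ∀ j, u (h (d (Pi.single i 1) j • Pi.single j 1)) =
          Tw.mk y (y.nu (d (Pi.single i 1) j) • Tw.un y (u (h (Pi.single j 1)))) := by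
        intro j
        rw [map_smul, map_smul]
        rfl
      rw [Finset.sum_congr rfl fun j _ => e3 j]
      rfl
    rw [e2, Finset.sum_apply, map_sum]
    refine Finset.sum_congr rfl fun j _ => ?_
    rw [Pi.smul_apply, smul_eq_mul, y.comm, y.nn]
  rw [Finset.sum_congr rfl fun i _ => h1 i, Finset.sum_comm]
  refine Finset.sum_congr rfl fun j _ => ?_
  rw [← map_sum]
  congr 1
  rw [LinearMap.comp_apply, un_twm]
  conv_rhs => rw [pi_eq_sum_univ' (Tw.un y (u (h (Pi.single j 1))))]
  rw [map_sum, Finset.sum_apply]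
  refine Finset.sum_congr rfl fun i _ => ?_
  rw [map_smul, Pi.smul_apply, smul_eq_mul]

theorem pr_zero_left {a : ℕ} (u : U →ₗ[B] Tw y (Fin a → B)) :
    pr y (0 : (Fin a → B) →ₗ[B] U) u = 0 := by
  unfold pr
  refine Finset.sum_eq_zero fun i _ => ?_
  rw [LinearMap.zero_apply, map_zero, Tw.un_zero, Pi.zero_apply, map_zero]

theorem pr_zero_right {a : ℕ} (g : (Fin a → B) →ₗ[B] U) :
    pr y g (0 : U →ₗ[B] Tw y (Fin a → B)) = 0 := by
  unfold pr
  refine Finset.sum_eq_zero fun i _ => ?_
  rw [LinearMap.zero_apply, Tw.un_zero, Pi.zero_apply, map_zero]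

/-- the elementary maps -/
theorem pr_elem {a : ℕ} (i : Fin a) (z : U) (u : U →ₗ[B] Tw y (Fin a → B)) :
    pr y ((LinearMap.proj i : (Fin a → B) →ₗ[B] B).smulRight z) u =
      y.lam (Tw.un y (u z) i) := by
  unfold pr
  rw [Finset.sum_eq_single i]
  · rw [LinearMap.smulRight_apply, LinearMap.proj_apply, Pi.single_eq_same, one_smul]
  · intro k _ hk
    rw [LinearMap.smulRight_apply, LinearMap.proj_apply, Pi.single_eq_of_ne hk.symm, zero_smul,
      map_zero, Tw.un_zero, Pi.zero_apply, map_zero]
  · simp

theorem pr_nondeg {a : ℕ} (u : U →ₗ[B] Tw y (Fin a → B))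
    (h : ∀ g : (Fin a → B) →ₗ[B] U, pr y g u = 0) : u = 0 := by
  refine LinearMap.ext fun z => Tw.ext y (funext fun i => ?_)
  refine y.nondeg _ fun b => ?_
  have h1 := h ((LinearMap.proj i : (Fin a → B) →ₗ[B] B).smulRight (y.nu b • z))
  rw [pr_elem, map_smul, Tw.un_smul, y.nn, Pi.smul_apply, smul_eq_mul] at h1
  exact h1

/-- decomposition of the maps of free modules -/
theorem hom_sum {a : ℕ} {N : Type} [AddCommGroup N] [Module B N] (g : (Fin a → B) →ₗ[B] N) :
    g = ∑ i, (LinearMap.proj i : (Fin a → B) →ₗ[B] B).smulRight (g (Pi.single i 1)) := by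
  refine LinearMap.ext fun x => ?_
  rw [LinearMap.sum_apply]
  conv_lhs => rw [pi_eq_sum_univ' x, map_sum]
  refine Finset.sum_congr rfl fun i _ => ?_
  rw [map_smul, LinearMap.smulRight_apply, LinearMap.proj_apply]

/-- every linear form is given by the pairing -/
theorem pr_repr [Module.Finite K B] {a : ℕ} (Φ : ((Fin a → B) →ₗ[B] U) →ₗ[K] K) :
    ∃ u : U →ₗ[B] Tw y (Fin a → B), ∀ g, Φ g = pr y g u := by
  let l : Fin a → (U →ₗ[K] K) := fun i =>
    { toFun := fun z => Φ ((LinearMap.proj i : (Fin a → B) →ₗ[B] B).smulRight z)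
      map_add' := fun z z' => by
        rw [← map_add]
        congr 1
        ext x
        simp
      map_smul' := fun c z => by
        rw [RingHom.id_apply, ← map_smul]
        congr 1
        refine LinearMap.ext fun x => ?_
        rw [LinearMap.smulRight_apply, LinearMap.smul_apply, LinearMap.smulRight_apply]
        exact (smul_comm c _ z).symm }
  let u : U →ₗ[B] Tw y (Fin a → B) :=
    { toFun := fun z => Tw.mk y (fun i => y.nu (lift y (l i) z))
      map_add' := fun z z' => by
        apply Tw.ext y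
        ext i
        simp
      map_smul' := fun b z => by
        apply Tw.ext y
        ext i
        simp }
  refine ⟨u, fun g => ?_⟩
  conv_lhs => rw [hom_sum g, map_sum]
  unfold pr
  refine Finset.sum_congr rfl fun i _ => ?_
  change l i (g (Pi.single i 1)) = y.lam (y.nu (lift y (l i) (g (Pi.single i 1))))
  rw [lam_nu, lam_lift]

end pairing

end Pool.Agent.H79.TN
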