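import Pool.Agent.H79.TN.D1
import Pool.Agent.H379.TN.Stms

/-!
# Project TN, part D: `Ext_C^i(Q, Q) = 0`
-/

set_option autoImplicit false
set_option linter.unusedSectionVars false
set_option linter.unusedVariables false

open CategoryTheory CategoryTheory.Abelian
open Pool.Agent.H379.TN Pool.Agent.H190.NK

namespace Pool.Agent.H79.TN

section basic

variable {B : Type} [Ring B] {U : Type} [AddCommGroup U] [Module B U]
variable {N N' N'' : Type} [AddCommGroup N] [Module B N] [AddCommGroup N'] [Module B N']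
  [AddCommGroup N''] [Module B N'']

/-- factoring of maps through kernels -/
theorem factor' {j : N →ₗ[B] N'} (hj : Function.Injective j) {q : N' →ₗ[B] N''}
    (hex : ∀ b, q b = 0 → ∃ a, j a = b) (h : U →ₗ[B] N') (hq : ∀ x, q (h x) = 0) :
    ∃ h' : U →ₗ[B] N, h = j ∘ₗ h' := by
  have hr : LinearMap.ker q ≤ LinearMap.range j := fun b hb => hex b hb
  refine ⟨(LinearEquiv.ofInjective j hj).symm.toLinearMap ∘ₗ (h.codRestrict (LinearMap.range j)
    fun x => hr (hq x)), ?_⟩
  ext x
  have := (LinearEquiv.ofInjective j hj).apply_symm_apply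
    ((h.codRestrict (LinearMap.range j) fun x => hr (hq x)) x)
  have h2 := congrArg Subtype.val this
  exact h2.symm

variable (U) in
/-- the contravariant functor `F` -/
def Fmap (v : N →ₗ[B] N') :
    (N' →ₗ[B] (B × U)) →ₗ[Module.End B (B × U)] (N →ₗ[B] (B × U)) where
  toFun h := h ∘ₗ v
  map_add' h h' := rfl
  map_smul' γ h := rfl

theorem Fmap_apply (v : N →ₗ[B] N') (h : N' →ₗ[B] (B × U)) : Fmap U v h = h ∘ₗ v := rfl

/-- decomposition of the maps of free modules -/
theorem hom_sum' {a : ℕ} (g : (Fin a → B) →ₗ[B] N) :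
    g = ∑ i, (LinearMap.proj i : (Fin a → B) →ₗ[B] B).smulRight (g (Pi.single i 1)) := hom_sum g

/-- `F (B^n)` is projective -/
theorem proj_F (n : ℕ) :
    Module.Projective (Module.End B (B × U)) ((Fin n → B) →ₗ[B] (B × U)) := by
  let s1 : Fin n → (((Fin n → B) →ₗ[B] (B × U)) →ₗ[Module.End B (B × U)] Module.End B (B × U)) :=
    fun i =>
    { toFun := fun f => (LinearMap.fst B B U).smulRight (f (Pi.single i 1))
      map_add' := fun f f' => by
        refine LinearMap.ext fun x => ?_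
        simp
      map_smul' := fun γ f => by
        refine LinearMap.ext fun x => ?_
        rw [RingHom.id_apply, smul_eq_mul, Module.End.mul_apply, LinearMap.smulRight_apply,
          LinearMap.smulRight_apply, map_smul]
        rfl }
  let s2 : Fin n → (Module.End B (B × U) →ₗ[Module.End B (B × U)] ((Fin n → B) →ₗ[B] (B × U))) :=
    fun i =>
    { toFun := fun γ => (LinearMap.proj i : (Fin n → B) →ₗ[B] B).smulRight (γ (1, 0))
      map_add' := fun f f' => by
        refine LinearMap.ext fun x => ?_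
        rw [LinearMap.add_apply, LinearMap.smulRight_apply, LinearMap.add_apply, smul_add]
        rfl
      map_smul' := fun γ f => by
        refine LinearMap.ext fun x => ?_
        rw [RingHom.id_apply, smul_eq_mul, Module.End.mul_apply, LinearMap.smulRight_apply,
          ← map_smul]
        rfl }
  refine Module.Projective.of_split (M := Fin n → Module.End B (B × U))
    (LinearMap.pi s1) (∑ i, (s2 i) ∘ₗ (LinearMap.proj i)) ?_
  refine LinearMap.ext fun f => ?_
  rw [LinearMap.comp_apply, LinearMap.sum_apply, LinearMap.id_apply]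
  conv_rhs => rw [hom_sum f]
  refine Finset.sum_congr rfl fun i _ => ?_
  change (LinearMap.proj i : (Fin n → B) →ₗ[B] B).smulRight
    (((LinearMap.fst B B U).smulRight (f (Pi.single i 1))) (1, 0)) = _
  congr 1
  rw [LinearMap.smulRight_apply, LinearMap.fst_apply, one_smul]

/-- `F U` is projective -/
theorem proj_FU : Module.Projective (Module.End B (B × U)) (U →ₗ[B] (B × U)) := by
  let s1 : (U →ₗ[B] (B × U)) →ₗ[Module.End B (B × U)] Module.End B (B × U) :=
    { toFun := fun f => f ∘ₗ LinearMap.snd B B U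
      map_add' := fun f f' => rfl
      map_smul' := fun γ f => rfl }
  let s2 : Module.End B (B × U) →ₗ[Module.End B (B × U)] (U →ₗ[B] (B × U)) :=
    { toFun := fun γ => γ ∘ₗ LinearMap.inr B B U
      map_add' := fun f f' => rfl
      map_smul' := fun γ f => rfl }
  refine Module.Projective.of_split (M := Module.End B (B × U)) s1 s2 ?_
  refine LinearMap.ext fun f => LinearMap.ext fun x => ?_
  rfl

end basic

section chi

variable {K B : Type} [Field K] [Ring B] [Algebra K B]
variable {U : Type} [AddCommGroup U] [Module K U] [Module B U] [IsScalarTower K B U]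
variable [Nontrivial U] (π : Module.End B (B × U) →ₐ[K] K)
  (hπ : ∀ (c : Module.End B (B × U)) (u : U), (c (0, u)).2 = π c • u)

include hπ

theorem pi_zero {c : Module.End B (B × U)} (h : ∀ u, (c (0, u)).2 = 0) : π c = 0 := by
  obtain ⟨u, hu⟩ := exists_ne (0 : U)
  have h1 := hπ c u
  rw [h u] at h1
  exact (smul_eq_zero.mp h1.symm).resolve_right hu

theorem hom_F_zero (n : ℕ)
    (θ : ((Fin n → B) →ₗ[B] (B × U)) →ₗ[Module.End B (B × U)] Chi π) : θ = 0 := by
  refine LinearMap.ext fun f => ?_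
  rw [hom_sum f, map_sum]
  refine Finset.sum_eq_zero fun i _ => ?_
  have h1 : (LinearMap.proj i : (Fin n → B) →ₗ[B] B).smulRight (f (Pi.single i 1)) =
      ((LinearMap.fst B B U).smulRight (f (Pi.single i 1)) : Module.End B (B × U)) •
        (LinearMap.proj i : (Fin n → B) →ₗ[B] B).smulRight ((1, 0) : B × U) := by
    refine LinearMap.ext fun x => ?_
    change x i • f (Pi.single i 1) = (x i • ((1, 0) : B × U)).1 • f (Pi.single i 1)
    simp
  rw [h1, map_smul]
  apply Chi.ext
  rw [Chi.un_smul, pi_zero π hπ, zero_mul]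
  · rfl
  · intro u
    rw [LinearMap.smulRight_apply, LinearMap.fst_apply, zero_smul]
    rfl

/-- compositions `U → B → U` vanish -/
theorem comp_B_zero (f : U →ₗ[B] B) (g : B →ₗ[B] U) (u : U) : g (f u) = 0 := by
  let c1 : Module.End B (B × U) := LinearMap.inl B B U ∘ₗ f ∘ₗ LinearMap.snd B B U
  let c2 : Module.End B (B × U) := LinearMap.inr B B U ∘ₗ g ∘ₗ LinearMap.fst B B U
  have h1 : π c1 = 0 := pi_zero π hπ fun u => rfl
  have h2 := hπ (c2 * c1) u
  rw [map_mul, h1, mul_zero, zero_smul] at h2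
  exact h2

theorem comp_free_zero {n : ℕ} (j : U →ₗ[B] (Fin n → B)) (g : (Fin n → B) →ₗ[B] U) (u : U) :
    g (j u) = 0 := by
  have h1 := LinearMap.congr_fun (hom_sum g) (j u)
  rw [LinearMap.sum_apply] at h1
  rw [h1]
  refine Finset.sum_eq_zero fun i _ => ?_
  have := comp_B_zero π hπ (LinearMap.proj i ∘ₗ j)
    ((LinearMap.toSpanSingleton B U (g (Pi.single i 1)))) u
  rw [LinearMap.smulRight_apply]
  exact this

end chi

section cls

variable {K B : Type} [Field K] [Ring B] [Algebra K B] (y : Fr K B)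
variable (U : Type) [AddCommGroup U] [Module K U] [Module B U] [IsScalarTower K B U]

/-- the class of modules -/
def Cl (V : Type) [AddCommGroup V] [Module B V] : Prop :=
  ∃ (a : ℕ) (W : Type) (_ : AddCommGroup W) (_ : Module B W) (k : W →ₗ[B] (Fin a → B))
    (p : (Fin a → B) →ₗ[B] V), Function.Injective k ∧ Function.Surjective p ∧
    (∀ w, p (k w) = 0) ∧ (∀ b, p b = 0 → ∃ w, k w = b) ∧ EV B U (Tw y W) ∧
    ∀ (f : V →ₗ[B] U) (u : U →ₗ[B] Tw y (Fin a → B)), (∀ x, p (Tw.un y (u x)) = 0) →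
      pr y (f ∘ₗ p) u = 0

variable {U}
variable {V : Type} [AddCommGroup V] [Module B V] {V' : Type} [AddCommGroup V'] [Module B V']

theorem Cl.fin (h : Cl y U V) : Module.Finite B V := by
  obtain ⟨a, W, _, _, k, p, hk, hp, -⟩ := h
  exact Module.Finite.of_surjective p hp

theorem extend_U [Module.Finite K B] (hV : Cl y U V) {m : ℕ} {i : V →ₗ[B] (Fin m → B)}
    (hi : Function.Injective i) (f : V →ₗ[B] U) :
    ∃ h : (Fin m → B) →ₗ[B] U, h ∘ₗ i = f := by
  obtain ⟨a, W, _, _, k, p, hk, hp, h0, hex, hE, hR⟩ := hV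
  let T : ((Fin m → B) →ₗ[B] U) →ₗ[K] ((Fin a → B) →ₗ[B] U) :=
    { toFun := fun h => h ∘ₗ (i ∘ₗ p)
      map_add' := fun _ _ => rfl
      map_smul' := fun _ _ => rfl }
  have key : f ∘ₗ p ∈ LinearMap.range T := by
    by_contra hn
    obtain ⟨Φ, hΦ1, hΦ2⟩ := Submodule.exists_le_ker_of_notMem hn
    obtain ⟨u, hu⟩ := pr_repr y Φ
    have h1 : twm y (i ∘ₗ p) ∘ₗ u = 0 := pr_nondeg y _ fun g => by
      rw [← pr_adj, ← hu]
      exact hΦ2 ⟨g, rfl⟩
    have h2 : ∀ x, p (Tw.un y (u x)) = 0 := fun x => hi (by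
      have := congrArg (Tw.un y) (LinearMap.congr_fun h1 x)
      rw [map_zero]
      exact this)
    exact hΦ1 (by rw [hu]; exact hR f u h2)
  obtain ⟨h, hh⟩ := key
  refine ⟨h, LinearMap.ext fun v => ?_⟩
  obtain ⟨x, rfl⟩ := hp v
  exact LinearMap.congr_fun hh x

theorem cl_quot [Module.Finite K B] (hV : Cl y U V) {m : ℕ} {i : V →ₗ[B] (Fin m → B)}
    (hi : Function.Injective i) {q : (Fin m → B) →ₗ[B] V'} (hq : Function.Surjective q)
    (q0 : ∀ a, q (i a) = 0) (qex : ∀ b, q b = 0 → ∃ a, i a = b) : Cl y U V' := by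
  obtain ⟨a, W, _, _, k, p, hk, hp, k0, kex, hE, hR⟩ := hV
  have hSE := shortExact_of (twm y k) (twm y p) (twm_inj y hk) (twm_surj y hp)
    (fun w => Tw.ext y (k0 (Tw.un y w))) (fun b hb => by
      obtain ⟨w, hw⟩ := kex (Tw.un y b) (congrArg (Tw.un y) hb)
      exact ⟨Tw.mk y w, Tw.ext y hw⟩)
  have : Module.Injective B (Tw y (Fin a → B)) := tw_injective y (inj_pi y a)
  have : Injective (ModuleCat.of B (Tw y (Fin a → B))) :=
    Module.injective_object_of_injective_module B _
  refine ⟨m, V, _, _, i, q, hi, hq, q0, qex,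
    fun n => co_shift hSE (ModuleCat.of B U) n (hE (n + 1)), ?_⟩
  intro f' u hu
  obtain ⟨u', rfl⟩ := factor' (twm_inj y hi) (q := twm y q) (fun b hb => by
      obtain ⟨w, hw⟩ := qex (Tw.un y b) (congrArg (Tw.un y) hb)
      exact ⟨Tw.mk y w, Tw.ext y hw⟩) u (fun x => Tw.ext y (hu x))
  obtain ⟨g, hg⟩ := co_lift hSE (ModuleCat.of B U) (hE 0) (ModuleCat.ofHom u')
  have hg' : twm y p ∘ₗ g.hom = u' := congrArg ModuleCat.Hom.hom hg
  have e1 : twm y i ∘ₗ u' = twm y (i ∘ₗ p) ∘ₗ g.hom := by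
    rw [← hg']
    rfl
  rw [e1, ← pr_adj]
  have e2 : (f' ∘ₗ q) ∘ₗ (i ∘ₗ p) = 0 := by
    refine LinearMap.ext fun x => ?_
    change f' (q (i (p x))) = 0
    rw [q0, map_zero]
  rw [e2, pr_zero_left]

theorem cl_init (hU : EV B U (Tw y U)) (hz : ∀ f : U →ₗ[B] Tw y U, f = 0) {n : ℕ}
    {j : U →ₗ[B] (Fin n → B)} (hj : Function.Injective j) {q : (Fin n → B) →ₗ[B] V'}
    (hq : Function.Surjective q) (q0 : ∀ a, q (j a) = 0) (qex : ∀ b, q b = 0 → ∃ a, j a = b) :
    Cl y U V' := by
  refine ⟨n, U, _, _, j, q, hj, hq, q0, qex, hU, ?_⟩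
  intro f u hu
  obtain ⟨u', rfl⟩ := factor' (twm_inj y hj) (q := twm y q) (fun b hb => by
      obtain ⟨w, hw⟩ := qex (Tw.un y b) (congrArg (Tw.un y) hb)
      exact ⟨Tw.mk y w, Tw.ext y hw⟩) u (fun x => Tw.ext y (hu x))
  rw [hz u', LinearMap.comp_zero, pr_zero_right]

end cls

section main

variable {K B : Type} [Field K] [Ring B] [Algebra K B] [Module.Finite K B] (y : Fr K B)
variable {U : Type} [AddCommGroup U] [Module K U] [Module B U] [IsScalarTower K B U]
variable {V : Type} [AddCommGroup V] [Module B V]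

theorem Fmap_inj {N N' : Type} [AddCommGroup N] [Module B N] [AddCommGroup N'] [Module B N']
    {v : N →ₗ[B] N'} (hv : Function.Surjective v) : Function.Injective (Fmap U v) := by
  intro h h' e
  refine LinearMap.ext fun x => ?_
  obtain ⟨x, rfl⟩ := hv x
  exact LinearMap.congr_fun e x

include y in
/-- `B` is injective -/
theorem extend_B {m : ℕ} {i : V →ₗ[B] (Fin m → B)} (hi : Function.Injective i) (f : V →ₗ[B] B) :
    ∃ h : (Fin m → B) →ₗ[B] B, h ∘ₗ i = f := by
  obtain ⟨h, hh⟩ := (injective_self y).out i hi f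
  exact ⟨h, LinearMap.ext hh⟩

theorem Fmap_surj (hV : Cl y U V) {m : ℕ} {i : V →ₗ[B] (Fin m → B)}
    (hi : Function.Injective i) : Function.Surjective (Fmap U i) := by
  intro f
  obtain ⟨h1, e1⟩ := extend_B y hi (LinearMap.fst B B U ∘ₗ f)
  obtain ⟨h2, e2⟩ := extend_U y hV hi (LinearMap.snd B B U ∘ₗ f)
  refine ⟨h1.prod h2, LinearMap.ext fun x => ?_⟩
  exact Prod.ext (LinearMap.congr_fun e1 x) (LinearMap.congr_fun e2 x)

theorem Fmap_ex {m : ℕ} (i : V →ₗ[B] (Fin m → B)) (h : (Fin m → B) →ₗ[B] (B × U))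
    (h0 : Fmap U i h = 0) : ∃ h', Fmap U (LinearMap.range i).mkQ h' = h := by
  refine ⟨(LinearMap.range i).liftQ h ?_, ?_⟩
  · rintro _ ⟨v, rfl⟩
    exact LinearMap.congr_fun h0 v
  · exact Submodule.liftQ_mkQ _ _ _

theorem Fmap_zero {m : ℕ} (i : V →ₗ[B] (Fin m → B))
    (h : ((Fin m → B) ⧸ LinearMap.range i) →ₗ[B] (B × U)) :
    Fmap U i (Fmap U (LinearMap.range i).mkQ h) = 0 := by
  refine LinearMap.ext fun v => ?_
  change h ((LinearMap.range i).mkQ (i v)) = 0
  have h1 : (LinearMap.range i).mkQ (i v) = 0 := by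
    rw [Submodule.mkQ_apply, Submodule.Quotient.mk_eq_zero]
    exact ⟨v, rfl⟩
  rw [h1, map_zero]

theorem cl_next (hV : Cl y U V) {m : ℕ} {i : V →ₗ[B] (Fin m → B)}
    (hi : Function.Injective i) : Cl y U ((Fin m → B) ⧸ LinearMap.range i) := by
  refine cl_quot y hV hi (q := (LinearMap.range i).mkQ) (Submodule.mkQ_surjective _) ?_ ?_
  · intro a
    rw [Submodule.mkQ_apply, Submodule.Quotient.mk_eq_zero]; exact ⟨a, rfl⟩
  · intro b hb
    rw [Submodule.mkQ_apply, Submodule.Quotient.mk_eq_zero] at hb; exact hb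

variable [Nontrivial U] (π : Module.End B (B × U) →ₐ[K] K)
  (hπ : ∀ (c : Module.End B (B × U)) (u : U), (c (0, u)).2 = π c • u)

include hπ in
theorem hom_FV_zero {V : Type} [AddCommGroup V] [Module B V] [Module K V] [IsScalarTower K B V]
    (hV : Cl y U V) (θ : (V →ₗ[B] (B × U)) →ₗ[Module.End B (B × U)] Chi π) : θ = 0 := by
  have := hV.fin
  have : Module.Finite K V := Module.Finite.trans B V
  obtain ⟨m, i, hi⟩ := exists_embed y (N := V)
  have h1 := hom_F_zero π hπ m (θ ∘ₗ Fmap U i)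
  refine LinearMap.ext fun f => ?_
  obtain ⟨h, rfl⟩ := Fmap_surj y hV hi f
  exact LinearMap.congr_fun h1 h

include hπ in
theorem ext_F (k : ℕ) : ∀ (V : Type) [AddCommGroup V] [Module B V] [Module K V]
    [IsScalarTower K B V], Cl y U V →
    Subsingleton (Ext.{0} (ModuleCat.of (Module.End B (B × U)) (V →ₗ[B] (B × U)))
      (ModuleCat.of (Module.End B (B × U)) (Chi π)) (k + 1)) := by
  induction k with
  | zero =>
    intro V _ _ _ _ hV
    have := hV.fin
    have : Module.Finite K V := Module.Finite.trans B V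
    obtain ⟨m, i, hi⟩ := exists_embed y (N := V)
    have hSE := shortExact_of (Fmap U (LinearMap.range i).mkQ) (Fmap U i)
      (Fmap_inj (Submodule.mkQ_surjective _)) (Fmap_surj y hV hi) (Fmap_zero i) (Fmap_ex i)
    have hP := proj_F (B := B) (U := U) m
    have hP' : Projective (ModuleCat.of (Module.End B (B × U)) ((Fin m → B) →ₗ[B] (B × U))) :=
      (IsProjective.iff_projective _).mp hP
    refine contra_one hSE _ fun g => ⟨0, ?_⟩
    have hg : g.hom = 0 := hom_FV_zero y π hπ (cl_next y hV hi) g.hom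
    apply ModuleCat.hom_ext
    rw [hg]
    simp
  | succ k ih =>
    intro V _ _ _ _ hV
    have := hV.fin
    have : Module.Finite K V := Module.Finite.trans B V
    obtain ⟨m, i, hi⟩ := exists_embed y (N := V)
    have hSE := shortExact_of (Fmap U (LinearMap.range i).mkQ) (Fmap U i)
      (Fmap_inj (Submodule.mkQ_surjective _)) (Fmap_surj y hV hi) (Fmap_zero i) (Fmap_ex i)
    have hP := proj_F (B := B) (U := U) m
    have hP' : Projective (ModuleCat.of (Module.End B (B × U)) ((Fin m → B) →ₗ[B] (B × U))) :=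
      (IsProjective.iff_projective _).mp hP
    exact contra_shift hSE _ k (ih _ (cl_next y hV hi))

/-- `F U → Q` -/
def rho : (U →ₗ[B] (B × U)) →ₗ[Module.End B (B × U)] Chi π where
  toFun f := Chi.mk π (π (f ∘ₗ LinearMap.snd B B U))
  map_add' f f' := by
    apply Chi.ext
    rw [LinearMap.add_comp, map_add]
    rfl
  map_smul' γ f := by
    apply Chi.ext
    change π (γ * (f ∘ₗ LinearMap.snd B B U)) = π γ * π (f ∘ₗ LinearMap.snd B B U)
    rw [map_mul]

theorem un_rho (f : U →ₗ[B] (B × U)) :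
    Chi.un π (rho π f) = π (f ∘ₗ LinearMap.snd B B U) := rfl

include hπ in
theorem rho_surj : Function.Surjective (rho π) := by
  intro c
  refine ⟨Chi.un π c • LinearMap.inr B B U, Chi.ext π ?_⟩
  rw [un_rho]
  obtain ⟨u, hu⟩ := exists_ne (0 : U)
  have h1 := hπ ((Chi.un π c • LinearMap.inr B B U) ∘ₗ LinearMap.snd B B U) u
  have h2 : (((Chi.un π c • LinearMap.inr B B U) ∘ₗ LinearMap.snd B B U) ((0, u) : B × U)).2 =
      Chi.un π c • u := rfl
  rw [h2, ← sub_eq_zero, ← sub_smul] at h1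
  exact (sub_eq_zero.mp ((smul_eq_zero.mp h1).resolve_right hu)).symm

include hπ in
theorem rho_eq_zero {f : U →ₗ[B] (B × U)} (h : rho π f = 0) (u : U) : (f u).2 = 0 := by
  have h1 := hπ (f ∘ₗ LinearMap.snd B B U) u
  have h2 : π (f ∘ₗ LinearMap.snd B B U) = 0 := congrArg (Chi.un π) h
  rw [h2, zero_smul] at h1
  exact h1

include hπ in
theorem rho_of_zero {f : U →ₗ[B] (B × U)} (h : ∀ u, (f u).2 = 0) : rho π f = 0 :=
  Chi.ext π (pi_zero π hπ h)

end main

/-- Part D. -/
theorem s_D : S_D := by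
  intro K B _ _ _ _ y U _ _ _ _ _ _ π hπ hU hz hE n
  obtain ⟨m, j, hj⟩ := exists_embed y (N := U)
  let F0 := LinearMap.ker (rho π)
  let G : ((Fin m → B) →ₗ[B] (B × U)) →ₗ[Module.End B (B × U)] F0 :=
    (Fmap U j).codRestrict F0 (fun h => rho_of_zero π hπ fun u =>
      comp_free_zero π hπ j (LinearMap.snd B B U ∘ₗ h) u)
  have hGv : ∀ h, (G h : U →ₗ[B] (B × U)) = h ∘ₗ j := fun h => rfl
  have hG : Function.Surjective G := by
    rintro ⟨f, hf⟩
    obtain ⟨h1, e1⟩ := extend_B y hj (LinearMap.fst B B U ∘ₗ f)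
    refine ⟨h1.prod 0, Subtype.ext (LinearMap.ext fun x => ?_)⟩
    refine Prod.ext (LinearMap.congr_fun e1 x) ?_
    exact (rho_eq_zero π hπ hf x).symm
  have hcl : Cl y U ((Fin m → B) ⧸ LinearMap.range j) := by
    refine cl_init y hU hz hj (q := (LinearMap.range j).mkQ) (Submodule.mkQ_surjective _) ?_ ?_
    · intro a
      rw [Submodule.mkQ_apply, Submodule.Quotient.mk_eq_zero]; exact ⟨a, rfl⟩
    · intro b hb
      rw [Submodule.mkQ_apply, Submodule.Quotient.mk_eq_zero] at hb; exact hb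
  have S1 := shortExact_of F0.subtype (rho π) Subtype.val_injective (rho_surj π hπ)
    (fun a : F0 => LinearMap.mem_ker.mp a.2)
    (fun b hb => ⟨(⟨b, LinearMap.mem_ker.mpr hb⟩ : F0), rfl⟩)
  have z1 : ∀ h : ((Fin m → B) ⧸ LinearMap.range j) →ₗ[B] (B × U),
      G (Fmap U (LinearMap.range j).mkQ h) = 0 := fun h => Subtype.ext (Fmap_zero j h)
  have z2 : ∀ h : (Fin m → B) →ₗ[B] (B × U), G h = 0 →
      ∃ h', Fmap U (LinearMap.range j).mkQ h' = h :=
    fun h h0 => Fmap_ex j h (congrArg Subtype.val h0)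
  have S2 := shortExact_of (C := F0) (Fmap U (LinearMap.range j).mkQ) G
    (Fmap_inj (Submodule.mkQ_surjective _)) hG z1 z2
  have hP1 : Projective (ModuleCat.of (Module.End B (B × U)) (U →ₗ[B] (B × U))) :=
    (IsProjective.iff_projective _).mp (proj_FU (B := B) (U := U))
  have hP2 : Projective (ModuleCat.of (Module.End B (B × U)) ((Fin m → B) →ₗ[B] (B × U))) :=
    (IsProjective.iff_projective _).mp (proj_F (B := B) (U := U) m)
  have hom0 : ∀ θ : F0 →ₗ[Module.End B (B × U)] Chi π, θ = 0 := by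
    intro θ
    have h1 := hom_F_zero π hπ m (θ ∘ₗ G)
    refine LinearMap.ext fun f => ?_
    obtain ⟨h, rfl⟩ := hG f
    exact LinearMap.congr_fun h1 h
  have ext0 : ∀ k : ℕ, Subsingleton (Ext.{0} (ModuleCat.of (Module.End B (B × U)) F0)
      (ModuleCat.of (Module.End B (B × U)) (Chi π)) (k + 1)) := by
    intro k
    cases k with
    | zero =>
      refine contra_one S2 _ fun g => ⟨0, ?_⟩
      have hg : g.hom = 0 := hom_FV_zero y π hπ hcl g.hom
      apply ModuleCat.hom_ext
      rw [hg]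
      simp
    | succ k => exact contra_shift S2 _ k (ext_F y π hπ k _ hcl)
  cases n with
  | zero =>
    refine contra_one S1 _ fun g => ⟨0, ?_⟩
    have hg : g.hom = 0 := hom0 g.hom
    apply ModuleCat.hom_ext
    rw [hg]
    simp
  | succ n => exact contra_shift S1 _ n (ext0 n)

end Pool.Agent.H79.TN
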